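import Mathlib
import Pool.Agent.Q14.RZMain

set_option autoImplicit false

/-!
# MP_60133c_an, Q1: all zeros of the coefficients of `1 / (Q(t) + z t^r)` are positive

`den Q r` is the formal power series `Q(t) + z t^r` in `t` over the field `ℝ(z)`; `P Q r m` is the
`m`-th coefficient of its inverse, a rational function of `z` (a polynomial if `r ≥ 1`), whose
zeros are the complex zeros of its reduced numerator.
-/

namespace Pool.Agent.Results.MP_60133c_an.RealZeros

open Polynomial Pool.Agent.Q14.RZ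

/-- `Q(t) + z t^r` as a power series in `t` over the field `ℝ(z)` (`z = RatFunc.X`). -/
noncomputable def den (Q : ℝ[X]) (r : ℕ) : PowerSeries (RatFunc ℝ) :=
  ((Q.map (algebraMap ℝ (RatFunc ℝ)) : (RatFunc ℝ)[X]) : PowerSeries (RatFunc ℝ))
    + PowerSeries.C (RatFunc.X : RatFunc ℝ) * PowerSeries.X ^ r

/-- `P_m(z)`: the coefficient of `t^m` in `1 / (Q(t) + z t^r)`. -/
noncomputable def P (Q : ℝ[X]) (r m : ℕ) : RatFunc ℝ :=
  PowerSeries.coeff m (den Q r)⁻¹

/-- The same denominator over a ring `K` with a ring homomorphism `f : ℝ[z] → K`. -/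
noncomputable def gden {K : Type*} [CommRing K] (f : ℝ[X] →+* K) (Q : ℝ[X]) (r : ℕ) :
    PowerSeries K :=
  ((Q.map (f.comp C) : K[X]) : PowerSeries K) + PowerSeries.C (f X) * PowerSeries.X ^ r

lemma map_gden {K : Type*} [CommRing K] (f : ℝ[X] →+* K) (Q : ℝ[X]) (r : ℕ) :
    PowerSeries.map f (gden (RingHom.id ℝ[X]) Q r) = gden f Q r := by
  unfold gden
  ext n
  simp [PowerSeries.coeff_X_pow, PowerSeries.coeff_C_mul, Polynomial.coeff_coe]

lemma den_eq (Q : ℝ[X]) (r : ℕ) : den Q r = gden (algebraMap ℝ[X] (RatFunc ℝ)) Q r := by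
  unfold den gden
  rw [RatFunc.algebraMap_X]
  rfl

lemma gden_factor (Q : ℝ[X]) (r : ℕ) (z : ℂ) (c : ℕ → ℝ)
    (hc : Q.map (algebraMap ℝ ℂ) = C ((Q.eval 0 : ℝ) : ℂ)
        * ∏ i ∈ Finset.range Q.natDegree, (1 - C ((c i : ℝ) : ℂ) * X)) :
    gden ((aeval z : ℝ[X] →ₐ[ℝ] ℂ) : ℝ[X] →+* ℂ) Q r
      = cden ((Q.eval 0 : ℝ) : ℂ) c Q.natDegree r z := by
  unfold gden cden
  have h1 : (((aeval z : ℝ[X] →ₐ[ℝ] ℂ) : ℝ[X] →+* ℂ).comp C) = algebraMap ℝ ℂ := by
    ext a
    simp
  rw [h1, hc]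
  congr 1
  · rw [Polynomial.coe_mul, Polynomial.coe_C]
    congr 1
    have h2 : ∀ n : ℕ, ((∏ i ∈ Finset.range n, (1 - C ((c i : ℝ) : ℂ) * X) : ℂ[X])
        : PowerSeries ℂ)
        = ∏ i ∈ Finset.range n, (1 - PowerSeries.C ((c i : ℝ) : ℂ) * PowerSeries.X) := by
      intro n
      induction n with
      | zero => simp
      | succ n ih =>
        rw [Finset.prod_range_succ, Finset.prod_range_succ, Polynomial.coe_mul, ih]
        congr 1
        ext k
        simp [PowerSeries.coeff_one,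
          PowerSeries.coeff_C_mul, PowerSeries.coeff_X]
    exact h2 _
  · simp

/-- Uniqueness of inverses. -/
lemma inv_unique {K : Type*} [CommRing K] {a b c : PowerSeries K} (h : a * b = 1)
    (h' : c * b = 1) : a = c := by
  calc a = a * (c * b) := by rw [h', mul_one]
    _ = (a * b) * c := by ring
    _ = c := by rw [h, one_mul]

/-! ### The case `r ≥ 1` -/

lemma exists_pos (Q : ℝ[X]) (hQ0 : 0 < Q.eval 0) {r : ℕ} (hr : 1 ≤ r) :
    ∃ ψ : PowerSeries ℝ[X], ψ * gden (RingHom.id ℝ[X]) Q r = 1 := by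
  have hu : IsUnit (C (Q.eval 0) : ℝ[X]) := (isUnit_iff_ne_zero.mpr hQ0.ne').map C
  obtain ⟨u, hu⟩ := hu
  refine ⟨PowerSeries.invOfUnit (gden (RingHom.id ℝ[X]) Q r) u, ?_⟩
  rw [mul_comm]
  apply PowerSeries.mul_invOfUnit
  rw [hu]
  unfold gden
  have hr0 : r ≠ 0 := by omega
  rw [map_add, map_mul, map_pow, PowerSeries.constantCoeff_X, zero_pow hr0, mul_zero, add_zero]
  rw [← PowerSeries.coeff_zero_eq_constantCoeff_apply, Polynomial.coeff_coe, coeff_map,
    coeff_zero_eq_eval_zero]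
  simp

/-! ### The case `r = 0` -/

/-- `(Q(u T) + z) / u` with `u = z + Q(0)`. -/
noncomputable def B (Q : ℝ[X]) : PowerSeries ℝ[X] :=
  PowerSeries.mk fun k => if k = 0 then 1 else C (Q.coeff k) * (X + C (Q.eval 0)) ^ (k - 1)

lemma exists_zero (Q : ℝ[X]) : ∃ ψ : PowerSeries ℝ[X], ψ * B Q = 1 := by
  refine ⟨PowerSeries.invOfUnit (B Q) 1, ?_⟩
  rw [mul_comm]
  apply PowerSeries.mul_invOfUnit
  rw [← PowerSeries.coeff_zero_eq_constantCoeff_apply]
  simp [B]

lemma zero_link {K : Type*} [CommRing K] (f : ℝ[X] →+* K) (Q : ℝ[X])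
    (ψ : PowerSeries ℝ[X]) (hψ : ψ * B Q = 1) (g : PowerSeries K) (hg : g * gden f Q 0 = 1)
    (m : ℕ) :
    f (X + C (Q.eval 0)) ^ (m + 1) * PowerSeries.coeff m g = f (PowerSeries.coeff m ψ) := by
  set u : K := f (X + C (Q.eval 0)) with hu
  have h1 : PowerSeries.rescale u (gden f Q 0) = PowerSeries.C u * PowerSeries.map f (B Q) := by
    ext k
    rw [PowerSeries.coeff_rescale, PowerSeries.coeff_C_mul, PowerSeries.coeff_map]
    unfold gden B
    rw [map_add, Polynomial.coeff_coe, coeff_map, pow_zero, mul_one, PowerSeries.coeff_C,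
      PowerSeries.coeff_mk]
    by_cases hk : k = 0
    · subst hk
      rw [coeff_zero_eq_eval_zero]
      simp [hu, map_add, add_comm]
    · rw [if_neg hk, if_neg hk, map_mul, map_pow, ← hu, add_zero, RingHom.comp_apply]
      obtain ⟨j, rfl⟩ := Nat.exists_eq_succ_of_ne_zero hk
      simp only [Nat.succ_eq_add_one, Nat.add_sub_cancel]
      ring
  have h2 : PowerSeries.rescale u g * (PowerSeries.C u * PowerSeries.map f (B Q)) = 1 := by
    rw [← h1, ← map_mul, hg, map_one]
  have h3 : PowerSeries.map f ψ * PowerSeries.map f (B Q) = 1 := by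
    rw [← map_mul, hψ, map_one]
  have h4 : PowerSeries.C u * PowerSeries.rescale u g = PowerSeries.map f ψ := by
    apply inv_unique (b := PowerSeries.map f (B Q)) _ h3
    rw [← h2]; ring
  have h5 := congrArg (PowerSeries.coeff m) h4
  rw [PowerSeries.coeff_C_mul, PowerSeries.coeff_rescale, PowerSeries.coeff_map] at h5
  rw [← h5]; ring

lemma coeff_one_prod (c : ℕ → ℝ) (n : ℕ) :
    (∏ i ∈ Finset.range n, (1 - C ((c i : ℝ) : ℂ) * X) : ℂ[X]).coeff 1
      = -∑ i ∈ Finset.range n, ((c i : ℝ) : ℂ) ∧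
    (∏ i ∈ Finset.range n, (1 - C ((c i : ℝ) : ℂ) * X) : ℂ[X]).coeff 0 = 1 := by
  induction n with
  | zero => simp [coeff_one]
  | succ n ih =>
    obtain ⟨h1, h0⟩ := ih
    constructor
    · rw [Finset.prod_range_succ, mul_sub, mul_one, coeff_sub, mul_comm (C _) X, ← mul_assoc,
        coeff_mul_C, coeff_mul_X, h1, h0, Finset.sum_range_succ]
      ring
    · rw [Finset.prod_range_succ, mul_sub, mul_one, coeff_sub, mul_comm (C _) X, ← mul_assoc,
        coeff_mul_C, h0]
      simp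

/-- **Q1 of MP_60133c_an, proved.**  Let `Q` be a nonconstant real polynomial all of whose complex
zeros are positive real numbers, with `Q(0) > 0`, and let `r ≥ 0`.  Then `Q(t) + z t^r` is
invertible as a power series in `t` over `ℝ(z)`, and every complex zero of (the reduced numerator
of) every coefficient `P_m(z)` of its inverse is a positive real number.  For `r ≥ 1` moreover
`P_m` is a polynomial. -/
theorem result (Q : ℝ[X]) (hdeg : 0 < Q.natDegree)
    (hz : ∀ w : ℂ, aeval w Q = 0 → 0 < w.re ∧ w.im = 0) (hQ0 : 0 < Q.eval 0) (r : ℕ) :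
    den Q r * (den Q r)⁻¹ = 1 ∧
    ∀ m : ℕ, (1 ≤ r → ∃ p : ℝ[X], P Q r m = algebraMap ℝ[X] (RatFunc ℝ) p) ∧
      ∀ z : ℂ, aeval z (P Q r m).num = 0 → 0 < z.re ∧ z.im = 0 := by
  have hQne : Q ≠ 0 := by
    rintro rfl
    simp at hQ0
  obtain ⟨c, hc, hfac⟩ := exists_factor_poly Q hQne hz
  rcases Nat.eq_zero_or_pos r with hr | hr
  · subst hr
    have hcc : PowerSeries.constantCoeff (den Q 0) ≠ 0 := by
      have h1 : PowerSeries.constantCoeff (den Q 0)
          = algebraMap ℝ[X] (RatFunc ℝ) (X + C (Q.eval 0)) := by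
        rw [den_eq]
        unfold gden
        rw [← PowerSeries.coeff_zero_eq_constantCoeff_apply, map_add, Polynomial.coeff_coe,
          coeff_map, coeff_zero_eq_eval_zero, pow_zero, mul_one, PowerSeries.coeff_C, if_pos rfl,
          RingHom.comp_apply, map_add, add_comm]
      rw [h1]
      intro h2
      have h3 : (X + C (Q.eval 0) : ℝ[X]) = 0 :=
        (map_eq_zero_iff _ (RatFunc.algebraMap_injective ℝ)).mp h2
      exact (X_add_C_ne_zero (Q.eval 0)) h3
    have hinv : den Q 0 * (den Q 0)⁻¹ = 1 := PowerSeries.mul_inv_cancel _ hcc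
    refine ⟨hinv, fun m => ⟨fun h => absurd h (by omega), fun z hzero => ?_⟩⟩
    obtain ⟨ψ, hψ⟩ := exists_zero Q
    have hinv' : (den Q 0)⁻¹ * gden (algebraMap ℝ[X] (RatFunc ℝ)) Q 0 = 1 := by
      rw [← den_eq, mul_comm]; exact hinv
    have hlink := zero_link (algebraMap ℝ[X] (RatFunc ℝ)) Q ψ hψ _ hinv' m
    have hune : (X + C (Q.eval 0) : ℝ[X]) ^ (m + 1) ≠ 0 := pow_ne_zero _ (X_add_C_ne_zero _)
    have hP : P Q 0 m = algebraMap ℝ[X] (RatFunc ℝ) (PowerSeries.coeff m ψ)
        / algebraMap ℝ[X] (RatFunc ℝ) ((X + C (Q.eval 0) : ℝ[X]) ^ (m + 1)) := by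
      rw [← hlink, map_pow]
      have : (algebraMap ℝ[X] (RatFunc ℝ) (X + C (Q.eval 0))) ^ (m + 1) ≠ 0 := by
        rw [← map_pow]
        exact (map_ne_zero_iff _ (RatFunc.algebraMap_injective ℝ)).mpr hune
      unfold P
      field_simp
    have hdvd : (P Q 0 m).num ∣ PowerSeries.coeff m ψ := by
      rw [hP]
      exact RatFunc.num_div_dvd _ hune
    have hz0 : aeval z (PowerSeries.coeff m ψ) = 0 := by
      obtain ⟨e, he⟩ := hdvd
      rw [he, map_mul, hzero, zero_mul]
    by_contra hneg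
    by_cases hzu : z + ((Q.eval 0 : ℝ) : ℂ) = 0
    · -- `z = -Q(0)`
      have hmap : PowerSeries.map ((aeval z : ℝ[X] →ₐ[ℝ] ℂ) : ℝ[X] →+* ℂ) (B Q)
          = 1 + PowerSeries.C ((Q.coeff 1 : ℝ) : ℂ) * PowerSeries.X := by
        ext k
        rw [PowerSeries.coeff_map]
        unfold B
        rw [PowerSeries.coeff_mk, map_add, PowerSeries.coeff_one, PowerSeries.coeff_C_mul,
          PowerSeries.coeff_X]
        rcases k with _ | k
        · simp
        · rcases k with _ | k
          · simp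
          · have : aeval z (X + C (Q.eval 0) : ℝ[X]) = 0 := by
              rw [map_add, aeval_X, aeval_C]
              exact hzu
            simp [hzu]
      have h3 : PowerSeries.map ((aeval z : ℝ[X] →ₐ[ℝ] ℂ) : ℝ[X] →+* ℂ) ψ
          * (1 + PowerSeries.C ((Q.coeff 1 : ℝ) : ℂ) * PowerSeries.X) = 1 := by
        rw [← hmap, ← map_mul, hψ, map_one]
      have hq1 : ((Q.coeff 1 : ℝ) : ℂ) ≠ 0 := by
        have h4 : (Q.map (algebraMap ℝ ℂ)).coeff 1 = ((Q.coeff 1 : ℝ) : ℂ) := by
          rw [coeff_map]; rfl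
        rw [← h4, hfac, coeff_C_mul, (coeff_one_prod c Q.natDegree).1]
        refine mul_ne_zero (by exact_mod_cast hQ0.ne') (neg_ne_zero.mpr ?_)
        have h5 : 0 < ∑ i ∈ Finset.range Q.natDegree, c i :=
          Finset.sum_pos (fun i _ => hc i) ⟨0, by simpa using hdeg⟩
        have h6 : (∑ i ∈ Finset.range Q.natDegree, ((c i : ℝ) : ℂ))
            = ((∑ i ∈ Finset.range Q.natDegree, c i : ℝ) : ℂ) := by push_cast; rfl
        rw [h6]
        exact_mod_cast h5.ne'
      have h7 : ∀ k : ℕ, aeval z (PowerSeries.coeff k ψ) = (-((Q.coeff 1 : ℝ) : ℂ)) ^ k := by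
        intro k
        induction k with
        | zero =>
          have := congrArg (PowerSeries.coeff 0) h3
          rw [mul_add, mul_one, map_add, ← mul_assoc, PowerSeries.coeff_zero_mul_X] at this
          simpa using this
        | succ k ih =>
          have := congrArg (PowerSeries.coeff (k + 1)) h3
          rw [mul_add, mul_one, map_add, ← mul_assoc, PowerSeries.coeff_succ_mul_X,
            PowerSeries.coeff_mul_C, PowerSeries.coeff_map, PowerSeries.coeff_map,
            PowerSeries.coeff_one, if_neg (by omega)] at this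
          have h8 : ((aeval z : ℝ[X] →ₐ[ℝ] ℂ) : ℝ[X] →+* ℂ) (PowerSeries.coeff k ψ)
              = aeval z (PowerSeries.coeff k ψ) := rfl
          have h9 : ((aeval z : ℝ[X] →ₐ[ℝ] ℂ) : ℝ[X] →+* ℂ) (PowerSeries.coeff (k + 1) ψ)
              = aeval z (PowerSeries.coeff (k + 1) ψ) := rfl
          rw [h8, h9, ih] at this
          rw [pow_succ]
          linear_combination this
      rw [h7 m] at hz0
      exact pow_ne_zero m (neg_ne_zero.mpr hq1) hz0
    · -- `z ≠ -Q(0)`
      set f : ℝ[X] →+* ℂ := ((aeval z : ℝ[X] →ₐ[ℝ] ℂ) : ℝ[X] →+* ℂ) with hf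
      have hfu : f (X + C (Q.eval 0)) = z + ((Q.eval 0 : ℝ) : ℂ) := by
        rw [hf, map_add]; simp
      have hg : (gden f Q 0)⁻¹ * gden f Q 0 = 1 := by
        apply PowerSeries.inv_mul_cancel
        have h1 : PowerSeries.constantCoeff (gden f Q 0) = f (X + C (Q.eval 0)) := by
          unfold gden
          rw [← PowerSeries.coeff_zero_eq_constantCoeff_apply, map_add, Polynomial.coeff_coe,
            coeff_map, coeff_zero_eq_eval_zero, pow_zero, mul_one, PowerSeries.coeff_C,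
            if_pos rfl, RingHom.comp_apply, map_add, add_comm]
        rw [h1, hfu]
        exact hzu
      have h2 := zero_link f Q ψ hψ _ hg m
      have h3 : f (PowerSeries.coeff m ψ) = 0 := hz0
      rw [h3, hfu] at h2
      rw [gden_factor Q 0 z c hfac] at hg h2
      rcases mul_eq_zero.mp h2 with h4 | h4
      · exact pow_ne_zero _ hzu h4
      · exact coeff_ne_zero_zero hQ0 hc hdeg hneg hg m h4
  · obtain ⟨ψ, hψ⟩ := exists_pos Q hQ0 hr
    have h1 : PowerSeries.map (algebraMap ℝ[X] (RatFunc ℝ)) ψ * den Q r = 1 := by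
      rw [den_eq, ← map_gden, ← map_mul, hψ, map_one]
    have hcc : PowerSeries.constantCoeff (den Q r) ≠ 0 := by
      intro h2
      have h3 := congrArg PowerSeries.constantCoeff h1
      rw [map_mul, h2, mul_zero, map_one] at h3
      exact zero_ne_one h3
    have hinv : den Q r * (den Q r)⁻¹ = 1 := PowerSeries.mul_inv_cancel _ hcc
    have heq : (den Q r)⁻¹ = PowerSeries.map (algebraMap ℝ[X] (RatFunc ℝ)) ψ :=
      inv_unique (by rw [mul_comm]; exact hinv) h1
    have hP : ∀ m, P Q r m = algebraMap ℝ[X] (RatFunc ℝ) (PowerSeries.coeff m ψ) := by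
      intro m
      unfold P
      rw [heq, PowerSeries.coeff_map]
    refine ⟨hinv, fun m => ⟨fun _ => ⟨_, hP m⟩, fun z hzero => ?_⟩⟩
    rw [hP m, RatFunc.num_algebraMap] at hzero
    by_contra hneg
    set f : ℝ[X] →+* ℂ := ((aeval z : ℝ[X] →ₐ[ℝ] ℂ) : ℝ[X] →+* ℂ) with hf
    have hg : PowerSeries.map f ψ * gden f Q r = 1 := by
      rw [← map_gden, ← map_mul, hψ, map_one]
    rw [gden_factor Q r z c hfac] at hg
    apply coeff_ne_zero_pos hQ0 hc hdeg hr hneg hg m
    rw [PowerSeries.coeff_map]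
    exact hzero

end Pool.Agent.Results.MP_60133c_an.RealZeros
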